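import Pool.Agent.helper84.VN.Spec4m
import Pool.Agent.helper67.VN.LST
import Pool.Agent.helper14.VQE.NMB

/-!
# Row vn:KN4 (MP_07c750_an): the surface `(θ, s) ↦ fl (τ + s) (g kM θ)`
-/

set_option autoImplicit false

open scoped MatrixGroups ContDiff Topology UpperHalfPlane ComplexConjugate ENNReal
open UpperHalfPlane MeasureTheory Filter Set

namespace Pool.Agent.VN

open Pool.Agent.RS Pool.Agent.VQ
open Pool.Agent.VQE (nm)

noncomputable section

/-- the variation of a curve is unique -/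
theorem KN4_uni {γ : ℝ → SL(2, ℝ)} {x b c x' b' c' : ℝ → ℝ} (h : Cv γ x b c) (h' : Cv γ x' b' c') (v : ℝ) :
    b v = b' v ∧ c v = c' v := by
  have key : !![x v / 2, b v; c v, -(x v / 2)] = !![x' v / 2, b' v; c' v, -(x' v / 2)] := by
    have h1 : (γ v).1 * !![x v / 2, b v; c v, -(x v / 2)] = (γ v).1 * !![x' v / 2, b' v; c' v, -(x' v / 2)] := by
      ext i j
      exact (h.der v i j).unique (h'.der v i j)
    have h2 := congrArg (fun M => (γ v)⁻¹.1 * M) h1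
    simp only [← Matrix.mul_assoc] at h2
    rw [← Matrix.SpecialLinearGroup.coe_mul, inv_mul_cancel, Matrix.SpecialLinearGroup.coe_one, Matrix.one_mul, Matrix.one_mul] at h2
    exact h2
  exact ⟨congrFun (congrFun key 0) 1, congrFun (congrFun key 1) 0⟩

theorem KN4_kM0 : kM 0 = 1 := by
  apply Subtype.ext
  ext i j
  fin_cases i <;> fin_cases j <;> simp [kM]

theorem KN4_FM {C F : ℝ} (hC : 1 ≤ C) (h : FM C ≤ F) : 1 ≤ F := by
  refine le_trans ?_ h
  unfold FM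
  have h1 : (1 : ℝ) ≤ Real.exp (40 * C) := Real.one_le_exp (by linarith)
  have h2 : (1 : ℝ) ≤ (10 * C) ^ 40 := one_le_pow₀ (by linarith)
  nlinarith

set_option maxHeartbeats 8000000 in
theorem KN4_key (hLST : LST_stmt) (hLJT : LJT_stmt) (hLGF : LGF_stmt) (hLDR : LDR_stmt)
    {k C0 F K0 CV C : ℝ} {D : Dyn} (hFK : FK k C0 D) (hF : FM C0 ≤ F) (hK0 : 1 ≤ K0) (hCV : 0 ≤ CV)
    {E τ r ε : ℝ} (g : SL(2, ℝ)) (hE : |E| ≤ k)
    (hSN : ∀ (s : ℝ) (g : SL(2, ℝ)), |s| ≤ 1 / K0 → nm (g⁻¹ * D.fl E s g) ≤ K0 * |s|)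
    (hNY : ∀ (x b c : ℝ → ℝ), VSol D E g x b c → |x 0| ≤ 1 → |b 0| ≤ 1 → |c 0| ≤ 1 →
      |b τ + c τ| ≤ CV * ‖(D.Y E τ g).det‖)
    (hτ : 2 ≤ τ) (hr : 0 < r) (hε : Real.exp (3 * C0 ^ 2 * τ) * (4 * Real.exp C0 * r) ≤ ε)
    (h1 : 2 * ε ≤ 1 / F ^ 4) (h2 : ε ≤ 1 / (10 * C0) ^ 20)
    (h3 : 1800 * C0 ^ 4 * Real.exp (3 * C0 ^ 2) * ε ≤ 1 / 20)
    (hCK : K0 ≤ C) (hCr : C * r ≤ 1 / 20) (hC : 600 * C0 ^ 5 * Real.exp (3 * C0 ^ 2) * CV ≤ C) :
    ∃ c : ℝ, c ≤ C * ‖(D.Y E τ g).det‖ ∧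
      LN c C r (fun θ s => (D.fl E τ g)⁻¹ * D.fl E (τ + s) (g * kM θ)) := by
  have hC0 := hFK.c1
  have hF1 : 1 ≤ F := KN4_FM hC0 hF
  have hFp : 0 < F := by linarith
  have hC1 : 1 ≤ C := hK0.trans hCK
  have hr20 : r ≤ 1 / 20 := by nlinarith
  obtain ⟨x, b, c, ℓ, hRN, hℓ⟩ := hLST k C0 F D hFK hF E g hE
  have hRN2 := (hLJT k C0 F D hFK hF E hE).2.2.1 (1 / 2) 2 _ x b c ℓ (by norm_num) (by norm_num) hRN
  obtain ⟨X, Y, Z, L, h0, hV, hCN, hL0, hgr, hRt, -⟩ := hLGF k C0 F D hFK hF E _ x b c ℓ hE hRN2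
  set T0 : ℝ := τ - 1 with hT0
  have hT01 : 1 ≤ T0 := by linarith
  have hfl : ∀ T v, D.fl E T (D.fl E 1 (g * kM v)) = D.fl E (T + 1) (g * kM v) :=
    fun T v => (hFK.add E T 1 (g * kM v) hE).symm
  obtain ⟨J, hJ⟩ : ∃ J : ℝ → ℝ, J = fun v => Jc D.U E (D.fl E T0 (D.fl E 1 (g * kM v))) (Y T0 v) (Z T0 v) := ⟨_, rfl⟩
  have hJp : ∀ v, 0 < J v := fun v => by rw [hJ]; exact (hCN T0 (by linarith)).pos v
  have hJd : ∀ v, HasDerivAt (L T0) (J v) v := fun v => by rw [hJ]; exact (hCN T0 (by linarith)).dl v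
  have hder : ∀ a1 a2 : ℝ, a1 < a2 → ∃ w ∈ Ioo a1 a2, L T0 a2 - L T0 a1 = J w * (a2 - a1) := by
    intro a1 a2 h12
    obtain ⟨w, hw, he⟩ := exists_hasDerivAt_eq_slope (L T0) J h12
      (fun y _ => (hJd y).continuousAt.continuousWithinAt) (fun y _ => hJd y)
    refine ⟨w, hw, ?_⟩
    rw [he, div_mul_cancel₀ _ (by linarith)]
  -- lengths
  have hlen : ∀ T, 0 ≤ T → T ≤ τ → ∀ v v', -r ≤ v → v ≤ v' → v' ≤ r → L T v' - L T v ≤ ε := by
    intro T hT hTτ v v' hv hvv hv'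
    have a1 := (hgr 0 T v v' le_rfl hT hvv).2
    have a2 := hL0 v v'
    have a3 := (hℓ v v' hvv).2
    have a4 : Real.exp (3 * C0 ^ 2 * (T - 0)) ≤ Real.exp (3 * C0 ^ 2 * τ) := by
      apply Real.exp_le_exp.2
      have : 0 ≤ 3 * C0 ^ 2 := by positivity
      nlinarith
    have a5 : L 0 v' - L 0 v ≤ 4 * Real.exp C0 * r := by
      rw [a2]
      have a6 : 0 < Real.exp C0 := Real.exp_pos _
      nlinarith
    have a7 : 0 ≤ L 0 v' - L 0 v := by
      rw [a2]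
      have := (hℓ v v' hvv).1
      have a8 : 0 ≤ 2 / C0 * (v' - v) := mul_nonneg (by positivity) (by linarith)
      linarith
    refine a1.trans (le_trans ?_ hε)
    exact mul_le_mul a4 a5 a7 (Real.exp_pos _).le
  have hε0 : 0 < ε := lt_of_lt_of_le (by positivity) hε
  have hJ3 : ∀ v v', -r ≤ v → v ≤ v' → v' ≤ r → J v ≤ 3 * J v' ∧ J v' ≤ 3 * J v := by
    intro v v' hv hvv hv'
    have a1 := hlen T0 (by linarith) (by linarith) v v' hv hvv hv'
    have a2 := (hRt T0 hT01).di v v' hvv (by linarith)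
    have a3 : 2 * F ^ 3 * (L T0 v' - L T0 v) ≤ 1 := by
      have b1 : 2 * F ^ 3 * (L T0 v' - L T0 v) ≤ F ^ 3 * (2 * ε) := by
        have : 0 < F ^ 3 := by positivity
        nlinarith
      have b2 : F ^ 3 * (2 * ε) ≤ F ^ 3 * (1 / F ^ 4) := mul_le_mul_of_nonneg_left h1 (by positivity)
      have b3 : F ^ 3 * (1 / F ^ 4) = 1 / F := by field_simp
      have b4 : 1 / F ≤ 1 := by
        rw [div_le_one hFp]
        exact hF1
      linarith
    have a4 : |Real.log (J v') - Real.log (J v)| ≤ 1 := by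
      rw [hJ]
      exact a2.trans a3
    have a5 := abs_le.1 a4
    have e3 : Real.exp 1 ≤ 3 := by
      have := Real.exp_one_lt_d9
      linarith
    have p1 := hJp v
    have p2 := hJp v'
    constructor
    · have b1 : Real.log (J v) ≤ Real.log (J v') + 1 := by linarith [a5.1]
      have b2 : J v ≤ J v' * Real.exp 1 := by
        calc J v = Real.exp (Real.log (J v)) := (Real.exp_log p1).symm
          _ ≤ Real.exp (Real.log (J v') + 1) := Real.exp_le_exp.2 b1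
          _ = J v' * Real.exp 1 := by rw [Real.exp_add, Real.exp_log p2]
      nlinarith
    · have b1 : Real.log (J v') ≤ Real.log (J v) + 1 := by linarith [a5.2]
      have b2 : J v' ≤ J v * Real.exp 1 := by
        calc J v' = Real.exp (Real.log (J v')) := (Real.exp_log p2).symm
          _ ≤ Real.exp (Real.log (J v) + 1) := Real.exp_le_exp.2 b1
          _ = J v * Real.exp 1 := by rw [Real.exp_add, Real.exp_log p1]
      nlinarith
  have hJ0 : ∀ v, -r ≤ v → v ≤ r → J v ≤ 3 * J 0 ∧ J 0 ≤ 3 * J v := by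
    intro v hv hv'
    rcases le_total v 0 with h | h
    · exact hJ3 v 0 hv h (by linarith)
    · exact (hJ3 0 v (by linarith) h hv').symm
  have hJ0p := hJp 0
  have hlin : ∀ v v', -r ≤ v → v ≤ v' → v' ≤ r → L T0 v' - L T0 v ≤ 3 * J 0 * (v' - v) := by
    intro v v' hv hvv hv'
    rcases eq_or_lt_of_le hvv with h | h
    · rw [h, sub_self, sub_self, mul_zero]
    · obtain ⟨w, hw, he⟩ := hder v v' h
      rw [he]
      exact mul_le_mul_of_nonneg_right (hJ0 w (by linarith [hw.1]) (by linarith [hw.2])).1 (by linarith)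
  have hJr : J 0 * r ≤ 3 * ε := by
    obtain ⟨w, hw, he⟩ := hder 0 r hr
    have a1 := hlen T0 (by linarith) (by linarith) 0 r (by linarith) hr.le le_rfl
    have a2 := (hJ0 w (by linarith [hw.1]) hw.2.le).2
    rw [he] at a1
    nlinarith
  have he3 : 1 ≤ Real.exp (3 * C0 ^ 2) := Real.one_le_exp (by positivity)
  have hlinT : ∀ s, -r ≤ s → s ≤ r → ∀ v v', -r ≤ v → v ≤ v' → v' ≤ r →
      L (T0 + s) v' - L (T0 + s) v ≤ Real.exp (3 * C0 ^ 2) * (3 * J 0 * (v' - v)) := by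
    intro s hs hs' v v' hv hvv hv'
    have a0 := hlin v v' hv hvv hv'
    have a00 : 0 ≤ 3 * J 0 * (v' - v) := mul_nonneg (by positivity) (by linarith)
    rcases le_total 0 s with h | h
    · have a1 := (hgr T0 (T0 + s) v v' (by linarith) (by linarith) hvv).2
      have a2 : Real.exp (3 * C0 ^ 2 * (T0 + s - T0)) ≤ Real.exp (3 * C0 ^ 2) := by
        apply Real.exp_le_exp.2
        have : 0 ≤ 3 * C0 ^ 2 := by positivity
        nlinarith
      have a3 : L T0 v' - L T0 v ≥ 0 := by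
        have := (hgr 0 T0 v v' le_rfl (by linarith) hvv).1
        have a4 : 0 ≤ L 0 v' - L 0 v := by
          rw [hL0 v v']
          have := (hℓ v v' hvv).1
          have a8 : 0 ≤ 2 / C0 * (v' - v) := mul_nonneg (by positivity) (by linarith)
          linarith
        have a5 : 0 ≤ Real.exp ((T0 - 0) / (3 * C0 ^ 2)) * (L 0 v' - L 0 v) := mul_nonneg (Real.exp_pos _).le a4
        linarith
      exact a1.trans (mul_le_mul a2 a0 a3 (Real.exp_pos _).le)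
    · have a1 := (hgr (T0 + s) T0 v v' (by linarith) (by linarith) hvv).1
      have a2 : 1 ≤ Real.exp ((T0 - (T0 + s)) / (3 * C0 ^ 2)) := by
        apply Real.one_le_exp
        apply div_nonneg (by linarith) (by positivity)
      have a4 : 0 ≤ L (T0 + s) v' - L (T0 + s) v := by
        have b1 := (hgr 0 (T0 + s) v v' le_rfl (by linarith) hvv).1
        have b2 : 0 ≤ L 0 v' - L 0 v := by
          rw [hL0 v v']
          have := (hℓ v v' hvv).1
          have a8 : 0 ≤ 2 / C0 * (v' - v) := mul_nonneg (by positivity) (by linarith)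
          linarith
        have b3 : 0 ≤ Real.exp ((T0 + s - 0) / (3 * C0 ^ 2)) * (L 0 v' - L 0 v) := mul_nonneg (Real.exp_pos _).le b2
        linarith
      have a5 : L (T0 + s) v' - L (T0 + s) v ≤ L T0 v' - L T0 v := by nlinarith
      nlinarith
  -- the constant
  obtain ⟨c1, hc1⟩ : ∃ c1 : ℝ, c1 = 600 * C0 ^ 4 * Real.exp (3 * C0 ^ 2) * J 0 := ⟨_, rfl⟩
  have hc1p : 0 < c1 := by rw [hc1]; positivity
  have hnm1 : ∀ s, -r ≤ s → s ≤ r → ∀ v v', -r ≤ v → v ≤ v' → v' ≤ r →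
      nm ((D.fl E (τ + s) (g * kM v))⁻¹ * D.fl E (τ + s) (g * kM v')) ≤ c1 / 2 * (v' - v) := by
    intro s hs hs' v v' hv hvv hv'
    have a1 := hLDR k C0 D hFK E (fun v => D.fl E (T0 + s) (D.fl E 1 (g * kM v))) (X (T0 + s)) (Y (T0 + s)) (Z (T0 + s)) (L (T0 + s))
      hE (hCN (T0 + s) (by linarith)) v v' hvv ((hlen (T0 + s) (by linarith) (by linarith) v v' hv hvv hv').trans h2) _ rfl
    have a2 := a1.1
    simp only [hfl] at a2
    have a3 : T0 + s + 1 = τ + s := by rw [hT0]; ring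
    rw [a3] at a2
    refine a2.trans ?_
    have a4 := hlinT s hs hs' v v' hv hvv hv'
    have a5 : 0 ≤ 100 * C0 ^ 4 := by positivity
    have a6 := mul_le_mul_of_nonneg_left a4 a5
    refine a6.trans (le_of_eq ?_)
    rw [hc1]
    ring
  have hnm2 : ∀ s, -r ≤ s → s ≤ r → ∀ v v', -r ≤ v → v ≤ r → -r ≤ v' → v' ≤ r →
      nm ((D.fl E (τ + s) (g * kM v))⁻¹ * D.fl E (τ + s) (g * kM v')) ≤ c1 / 2 * |v - v'| := by
    intro s hs hs' v v' hv1 hv2 hv1' hv2'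
    rcases le_total v v' with h | h
    · rw [abs_sub_comm, abs_of_nonneg (by linarith : (0 : ℝ) ≤ v' - v)]
      exact hnm1 s hs hs' v v' hv1 h hv2'
    · rw [abs_of_nonneg (by linarith : (0 : ℝ) ≤ v - v')]
      have a1 := hnm1 s hs hs' v' v hv1' h hv2
      rw [← VQE.NMB_ninv, mul_inv_rev, inv_inv] at a1
      exact a1
  have hnm3 : ∀ s s', -r ≤ s → s ≤ r → -r ≤ s' → s' ≤ r → ∀ h : SL(2, ℝ),
      nm ((D.fl E (τ + s) h)⁻¹ * D.fl E (τ + s') h) ≤ K0 * |s - s'| := by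
    intro s s' hs1 hs2 hs1' hs2' h
    have a1 : D.fl E (τ + s') h = D.fl E (s' - s) (D.fl E (τ + s) h) := by
      rw [← hFK.add E (s' - s) (τ + s) h hE]
      have : s' - s + (τ + s) = τ + s' := by ring
      rw [this]
    rw [a1]
    have a2 : |s' - s| ≤ 1 / K0 := by
      rw [abs_le, le_div_iff₀ (by linarith : (0 : ℝ) < K0), ]
      have b1 : K0 * r ≤ 1 / 20 := by nlinarith
      constructor
      · rw [neg_le, ← sub_nonneg]
        have : 1 / K0 - -(s' - s) = (1 - K0 * (s - s')) / K0 := by field_simp; ring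
        rw [this]
        apply div_nonneg _ (by linarith)
        nlinarith
      · nlinarith
    have a3 := hSN (s' - s) (D.fl E (τ + s) h) a2
    rw [abs_sub_comm] at a3
    exact a3
  refine ⟨c1, ?_, ?_, ?_, hc1p, hC1, hr, hCr, ?_, ?_⟩
  · -- the determinant
    obtain ⟨X', Y', Z', h0', hV', hCv'⟩ := hFK.vs E (fun θ => g * kM θ) (fun _ => 0) (fun _ => 1) (fun _ => -1) hE (LST_cv g)
    have a1 := hCv' τ
    have a2 := (hCN T0 (by linarith)).toCv
    have a3 : (fun v => D.fl E T0 (D.fl E 1 (g * kM v))) = fun v => D.fl E τ (g * kM v) := by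
      funext v
      rw [hfl]
      have : T0 + 1 = τ := by rw [hT0]; ring
      rw [this]
    rw [a3] at a2
    obtain ⟨a4, a5⟩ := KN4_uni a2 a1 0
    have a6 := hV' 0
    simp only [KN4_kM0, mul_one] at a6
    have a7 := hNY _ _ _ a6 (by
      show |X' 0 0| ≤ 1
      rw [(h0' 0).1, abs_zero]
      norm_num) (by
      show |Y' 0 0| ≤ 1
      rw [(h0' 0).2.1, abs_one]) (by
      show |Z' 0 0| ≤ 1
      rw [(h0' 0).2.2, abs_neg, abs_one])
    have a8 : J 0 ≤ C0 * (CV * ‖(D.Y E τ g).det‖) := by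
      have b1 : J 0 = Jc D.U E (D.fl E T0 (D.fl E 1 (g * kM 0))) (Y T0 0) (Z T0 0) := by rw [hJ]
      rw [b1, a4, a5]
      unfold Jc
      refine (le_abs_self _).trans ?_
      rw [abs_neg, abs_mul]
      have b2 := (hFK.ro E (D.fl E T0 (D.fl E 1 (g * kM 0))) hE)
      have b3 : |rho D.U E (D.fl E T0 (D.fl E 1 (g * kM 0)))| ≤ C0 := by
        rw [abs_of_nonneg (le_trans (by positivity) b2.1)]
        exact b2.2.1
      exact mul_le_mul b3 a7 (abs_nonneg _) (by linarith)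
    have a9 : 0 ≤ ‖(D.Y E τ g).det‖ := norm_nonneg _
    rw [hc1]
    calc 600 * C0 ^ 4 * Real.exp (3 * C0 ^ 2) * J 0
        ≤ 600 * C0 ^ 4 * Real.exp (3 * C0 ^ 2) * (C0 * (CV * ‖(D.Y E τ g).det‖)) :=
          mul_le_mul_of_nonneg_left a8 (by positivity)
      _ = 600 * C0 ^ 5 * Real.exp (3 * C0 ^ 2) * CV * ‖(D.Y E τ g).det‖ := by ring
      _ ≤ C * ‖(D.Y E τ g).det‖ := mul_le_mul_of_nonneg_right hC a9
  · -- continuity
    have a1 : Continuous (fun p : ℝ × ℝ => D.fl E (τ + p.2) (g * kM p.1)) := by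
      have b1 : Continuous (fun p : ℝ × ℝ => ((E, (τ + p.2, g * kM p.1)) : ℝ × ℝ × SL(2, ℝ))) :=
        continuous_const.prodMk ((continuous_const.add continuous_snd).prodMk
          (continuous_const.mul (LST_kM_cont.comp continuous_fst)))
      exact hFK.cont.comp_continuous b1 (fun _ => hE)
    exact continuous_const.mul a1
  · show (D.fl E τ g)⁻¹ * D.fl E (τ + 0) (g * kM 0) = 1
    rw [KN4_kM0, mul_one, add_zero, inv_mul_cancel]
  · -- `c r`
    have a1 : c1 * r = 600 * C0 ^ 4 * Real.exp (3 * C0 ^ 2) * (J 0 * r) := by rw [hc1]; ring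
    rw [a1]
    refine le_trans ?_ h3
    have a2 := mul_le_mul_of_nonneg_left hJr (show (0 : ℝ) ≤ 600 * C0 ^ 4 * Real.exp (3 * C0 ^ 2) by positivity)
    refine a2.trans (le_of_eq ?_)
    ring
  · intro u hu u' hu' s hs s' hs'
    have a1 : ((D.fl E τ g)⁻¹ * D.fl E (τ + s) (g * kM u))⁻¹ * ((D.fl E τ g)⁻¹ * D.fl E (τ + s') (g * kM u')) =
        ((D.fl E (τ + s) (g * kM u))⁻¹ * D.fl E (τ + s) (g * kM u')) *
          ((D.fl E (τ + s) (g * kM u'))⁻¹ * D.fl E (τ + s') (g * kM u')) := by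
      group
    show nm (((D.fl E τ g)⁻¹ * D.fl E (τ + s) (g * kM u))⁻¹ * ((D.fl E τ g)⁻¹ * D.fl E (τ + s') (g * kM u'))) ≤ _
    rw [a1]
    have a2 := hnm2 s hs.1 hs.2 u u' hu.1 hu.2 hu'.1 hu'.2
    have a3 := hnm3 s s' hs.1 hs.2 hs'.1 hs'.2 (g * kM u')
    have a4 := VQE.NMB_sub ((D.fl E (τ + s) (g * kM u))⁻¹ * D.fl E (τ + s) (g * kM u'))
      ((D.fl E (τ + s) (g * kM u'))⁻¹ * D.fl E (τ + s') (g * kM u'))
    have a5 := VQE.NMB_nonneg ((D.fl E (τ + s) (g * kM u))⁻¹ * D.fl E (τ + s) (g * kM u'))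
    have a6 := VQE.NMB_nonneg ((D.fl E (τ + s) (g * kM u'))⁻¹ * D.fl E (τ + s') (g * kM u'))
    have a7 : |s - s'| ≤ 2 * r := by
      rw [abs_le]
      constructor <;> linarith [hs.1, hs.2, hs'.1, hs'.2]
    have a8 : K0 * |s - s'| ≤ 1 / 10 := by
      have b1 : K0 * |s - s'| ≤ C * (2 * r) := mul_le_mul hCK a7 (abs_nonneg _) (by linarith)
      linarith
    have a9 : K0 * |s - s'| ≤ C * |s - s'| := mul_le_mul_of_nonneg_right hCK (abs_nonneg _)
    generalize nm ((D.fl E (τ + s) (g * kM u))⁻¹ * D.fl E (τ + s) (g * kM u')) = n1 at a2 a4 a5 ⊢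
    generalize nm ((D.fl E (τ + s) (g * kM u'))⁻¹ * D.fl E (τ + s') (g * kM u')) = n2 at a3 a4 a6 ⊢
    have b2 : 2 * n1 * n2 ≤ n1 := by nlinarith
    linarith

/-- smallness for large `R` -/
theorem KN4_ev (a b : ℝ) (hb : 0 < b) : ∀ᶠ R : ℝ in atTop, a * R ^ (-(1 / 4) : ℝ) ≤ b := by
  have h1 : Tendsto (fun R : ℝ => a * R ^ (-(1 / 4) : ℝ)) atTop (𝓝 (a * 0)) :=
    (tendsto_rpow_neg_atTop (by norm_num : (0 : ℝ) < 1 / 4)).const_mul a
  rw [mul_zero] at h1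
  exact (h1.eventually (gt_mem_nhds hb)).mono fun R h => le_of_lt h

theorem KN4_proof (hFN4 : FN4_stmt) (hSN4 : SN4_stmt) (hLFK : LFK_stmt) (hLST : LST_stmt) (hLJT : LJT_stmt)
    (hLGF : LGF_stmt) (hLDR : LDR_stmt) (hNYU : NYU_stmt) : KN4_stmt := by
  intro Γ k B hΓ hk
  obtain ⟨C0, hC0, hLF⟩ := hLFK Γ k B hΓ hk
  obtain ⟨C1, hFN⟩ := hFN4 Γ hΓ k B hk
  obtain ⟨K0, hK0, hSN⟩ := hSN4 k C1
  obtain ⟨CV, hCV, hNY⟩ := hNYU k hk
  set F : ℝ := FM C0 with hFdef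
  have hF1 : 1 ≤ F := KN4_FM hC0 le_rfl
  set C : ℝ := max (60 * C0 ^ 2) (max K0 (600 * C0 ^ 5 * Real.exp (3 * C0 ^ 2) * CV)) with hCdef
  have hCa : 60 * C0 ^ 2 ≤ C := le_max_left _ _
  have hCb : K0 ≤ C := (le_max_left _ _).trans (le_max_right _ _)
  have hCc : 600 * C0 ^ 5 * Real.exp (3 * C0 ^ 2) * CV ≤ C := (le_max_right _ _).trans (le_max_right _ _)
  have hC1 : 1 ≤ C := hK0.trans hCb
  have hC60 : 60 ≤ C := by
    have : 1 ≤ C0 ^ 2 := one_le_pow₀ hC0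
    linarith
  refine ⟨C, hC1, ?_⟩
  intro A hA
  have he3 := hA.e3
  have hm : (1 : ℝ) ≤ A.m := by exact_mod_cast hA.m
  have hz := hA.z
  have hz1 := hA.z1
  have hz2 := hA.z2
  have hup := hA.up
  have q1 : A.e3 ≤ A.z := by nlinarith
  have q2 : A.z ≤ A.z1 := by nlinarith
  have q3 : A.z1 ≤ A.z2 := by nlinarith
  have q4 : C * A.z2 ≤ 1 := by
    have : 0 < A.z2 := by linarith
    have : A.z2 ≤ A.m * A.z2 := by nlinarith
    nlinarith
  have q5 : 3 * C0 ^ 2 * (A.m * A.e3) ≤ 1 / 20 := by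
    have s1 : A.m * A.e3 ≤ A.m * A.z2 := by nlinarith
    have s2 : 0 ≤ A.m * A.e3 := by positivity
    have s3 : 60 * C0 ^ 2 * (A.m * A.e3) ≤ C * (A.m * A.z2) := mul_le_mul hCa s1 s2 (by linarith)
    linarith
  have q6 : 2 * A.z2 ≤ 1 / 30 := by nlinarith
  have hme : 0 < A.m * A.e3 := by positivity
  have hF4 : 0 < 1 / F ^ 4 := by positivity
  have hev : ∀ᶠ R : ℝ in atTop, 1 ≤ R ∧ 3 / 2 * R ^ (-(1 / 4) : ℝ) ≤ k ∧
      2 * (4 * Real.exp C0) * R ^ (-(1 / 4) : ℝ) ≤ 1 / F ^ 4 ∧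
      (4 * Real.exp C0) * R ^ (-(1 / 4) : ℝ) ≤ 1 / (10 * C0) ^ 20 ∧
      1800 * C0 ^ 4 * Real.exp (3 * C0 ^ 2) * (4 * Real.exp C0) * R ^ (-(1 / 4) : ℝ) ≤ 1 / 20 ∧
      C * R ^ (-(1 / 4) : ℝ) ≤ 1 / 20 ∧ 2 / (A.m * A.e3) ≤ Real.log R :=
    (eventually_ge_atTop 1).and ((KN4_ev _ _ hk).and ((KN4_ev _ _ hF4).and ((KN4_ev _ _ (by positivity)).and
      ((KN4_ev _ _ (by norm_num)).and ((KN4_ev _ _ (by norm_num)).and
        (Real.tendsto_log_atTop.eventually (eventually_ge_atTop _)))))))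
  obtain ⟨R1, hR1⟩ := eventually_atTop.1 hev
  refine ⟨max R1 1, le_max_right _ _, ?_⟩
  intro R D hR hD p hp
  obtain ⟨w1, w2, w3, w4, w5, w6, w7⟩ := hR1 R ((le_max_left _ _).trans hR)
  have hRp : 0 < R := by linarith
  have hFK := hLF D hD
  have hE : |p.2| ≤ k := by
    have h1 : |p.2| ≤ 3 / 2 * R ^ (-(1 / 4) : ℝ) := abs_le.2 hp
    exact h1.trans w2
  have hlog : 2 ≤ A.m * A.e3 * Real.log R := by
    rw [div_le_iff₀ hme] at w7
    linarith
  have htu : A.tu R = A.m * A.e3 * Real.log R := by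
    unfold Prm.tu Prm.sg
    ring
  have hr2 : r2 A R ≤ R ^ (-(1 / 4) : ℝ) := by
    unfold r2
    exact Real.rpow_le_rpow_of_exponent_le w1 (by linarith)
  have hrp : 0 < r2 A R := by
    unfold r2
    exact Real.rpow_pos_of_pos hRp _
  have hε : Real.exp (3 * C0 ^ 2 * A.tu R) * (4 * Real.exp C0 * r2 A R) ≤ 4 * Real.exp C0 * R ^ (-(1 / 4) : ℝ) := by
    have s1 : Real.exp (3 * C0 ^ 2 * A.tu R) = R ^ (3 * C0 ^ 2 * (A.m * A.e3)) := by
      rw [Real.rpow_def_of_pos hRp, htu]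
      congr 1
      ring
    have s2 : R ^ (3 * C0 ^ 2 * (A.m * A.e3)) * r2 A R ≤ R ^ (-(1 / 4) : ℝ) := by
      unfold r2
      rw [← Real.rpow_add hRp]
      exact Real.rpow_le_rpow_of_exponent_le w1 (by linarith)
    rw [s1]
    have s3 : 0 ≤ 4 * Real.exp C0 := by positivity
    calc R ^ (3 * C0 ^ 2 * (A.m * A.e3)) * (4 * Real.exp C0 * r2 A R)
        = 4 * Real.exp C0 * (R ^ (3 * C0 ^ 2 * (A.m * A.e3)) * r2 A R) := by ring
      _ ≤ 4 * Real.exp C0 * R ^ (-(1 / 4) : ℝ) := mul_le_mul_of_nonneg_left s2 s3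
  exact KN4_key hLST hLJT hLGF hLDR (F := F) (CV := CV) hFK le_rfl hK0 (by linarith) p.1 hE
    (fun s g hs => (hSN D (hFN D hD) p.2 s g _ hE hs rfl).1)
    (fun x b c hV hx hb hc => hNY Γ B D hD p.2 p.1 x b c hE hV hx hb hc (A.tu R))
    (by rw [htu]; exact hlog) hrp hε (by linarith) w4 (by linarith) hCb
    (le_trans (mul_le_mul_of_nonneg_left hr2 (by linarith)) w6) hCc

end

end Pool.Agent.VN
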