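import Pool.Agent.helper93.VN.SpecL
import Pool.Agent.helper26.VQ.RUW

/-!
# Row vn:LUW (MP_07c750): the weak law on a piece (variable curvature)
-/

set_option autoImplicit false

open scoped MatrixGroups ContDiff Topology UpperHalfPlane ComplexConjugate ENNReal
open UpperHalfPlane MeasureTheory Filter Set

namespace Pool.Agent.VN

open Pool.Agent.RS Pool.Agent.VQ
open Pool.Agent.RPQ (mean)
open Pool.Agent.VQE (nm)

noncomputable section

theorem LUW_FM {C F : ℝ} (hC : 1 ≤ C) (hF : FM C ≤ F) : (10 * C) ^ 40 ≤ F := by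
  have h1 : (1 : ℝ) ≤ Real.exp (40 * C) := Real.one_le_exp (by linarith)
  have h2 : (0 : ℝ) ≤ (10 * C) ^ 40 := by positivity
  have h3 : (10 * C) ^ 40 ≤ FM C := by
    unfold FM
    nlinarith
  linarith

theorem LUW_proof (hLDR : LDR_stmt) : LUW_stmt := by
  intro k C F D hFK hFM Fd h e v0 l0 T0 E0 E γ x b c ℓ v v' hEk hl0 hl5 hv0 hU hE hR hvv hL1 hL2
  have hC := hFK.c1
  have hF40 := LUW_FM hC hFM
  have h10 : (10 : ℝ) ≤ 10 * C := by linarith
  have hFbig : (10 : ℝ) ^ 40 ≤ F := (pow_le_pow_left₀ (by norm_num) h10 40).trans hF40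
  have hF1000 : (1000 : ℝ) ≤ F := by
    refine le_trans ?_ hFbig
    norm_num
  have hFp : 0 < F := by linarith
  have hC4 : 41 * C ^ 4 ≤ F := by
    have h1 : (10 * C) ^ 4 ≤ (10 * C) ^ 40 := pow_le_pow_right₀ (by linarith) (by norm_num)
    have h2 : (10 * C) ^ 4 = 10000 * C ^ 4 := by ring
    have h3 : 0 ≤ C ^ 4 := by positivity
    nlinarith
  have hC1 : 4 * C ≤ F := by
    have h1 : C ≤ C ^ 4 := le_self_pow₀ hC (by norm_num)
    have h3 : 0 ≤ C ^ 4 := by positivity
    nlinarith
  -- powers of F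
  have hF4 : l0 ≤ 1 / (1000 * F ^ 4) := by
    refine hl5.trans ?_
    apply one_div_le_one_div_of_le (by positivity)
    have : F ^ 5 = F * F ^ 4 := by ring
    rw [this]
    exact mul_le_mul_of_nonneg_right hF1000 (by positivity)
  have hl1 : l0 ≤ 1 / 1000 := by
    refine hF4.trans ?_
    apply one_div_le_one_div_of_le (by norm_num)
    have : (1 : ℝ) ≤ F ^ 4 := one_le_pow₀ (by linarith)
    linarith
  have hl20 : 2 * l0 ≤ 1 / (10 * C) ^ 20 := by
    have h1 : (10 * C) ^ 20 ≤ F := by
      refine le_trans ?_ hF40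
      exact pow_le_pow_right₀ (by linarith) (by norm_num)
    have h2 : F ≤ 1000 * F ^ 4 := by
      have : F ≤ F ^ 4 := le_self_pow₀ (by linarith) (by norm_num)
      linarith
    have h3 : (0 : ℝ) < (10 * C) ^ 20 := by positivity
    have h4 : 2 * F ≤ F ^ 5 := by
      have h41 : F ^ 5 = F * F ^ 4 := by ring
      have h42 : (2 : ℝ) ≤ F ^ 4 := by
        have : F ≤ F ^ 4 := le_self_pow₀ (by linarith) (by norm_num)
        linarith
      rw [h41]
      nlinarith
    have h5 : 2 * (10 * C) ^ 20 ≤ F ^ 5 := by linarith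
    rw [le_div_iff₀ h3]
    have h6 : l0 * (2 * (10 * C) ^ 20) ≤ 1 / F ^ 5 * F ^ 5 := by
      apply mul_le_mul hl5 h5 (by positivity) (by positivity)
    rw [one_div, inv_mul_cancel₀ (by positivity)] at h6
    linarith
  have hκ : 2 * (2 * l0) ≤ 1 / F ^ 4 := by
    have h1 : 1 / (1000 * F ^ 4) = 1 / 1000 * (1 / F ^ 4) := by rw [one_div_mul_one_div]
    rw [h1] at hF4
    have h2 : 0 < 1 / F ^ 4 := by positivity
    linarith
  have hF3 : 2 * F ^ 3 * (2 * l0) ≤ 1 / 100 := by
    have h1 : F ^ 3 * l0 ≤ F ^ 3 * (1 / (1000 * F ^ 4)) := mul_le_mul_of_nonneg_left hF4 (by positivity)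
    have h2 : F ^ 3 * (1 / (1000 * F ^ 4)) = 1 / (1000 * F) := by
      field_simp
    rw [h2] at h1
    have h3 : 1 / (1000 * F) ≤ 1 / 1000000 := by
      apply one_div_le_one_div_of_le (by norm_num)
      linarith
    nlinarith
  set J : ℝ → ℝ := fun u => Jc D.U E (γ u) (b u) (c u) with hJ
  have hJp : ∀ u, 0 < J u := fun u => hR.pos u
  have hJd : ∀ u, HasDerivAt ℓ (J u) u := fun u => hR.dl u
  have hmono : StrictMono ℓ := strictMono_of_deriv_pos fun y => by rw [(hJd y).deriv]; exact hJp y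
  -- the speeds at two points of the piece
  have hcc : ∀ w1 ∈ Icc v v', ∀ w2 ∈ Icc v v', J w1 ≤ 102 / 100 * J w2 := by
    intro w1 h1 w2 h2
    have hlog : |Real.log (J w1) - Real.log (J w2)| ≤ 1 / 100 := by
      rcases le_total w1 w2 with h12 | h12
      · have hm1 := hmono.monotone h1.1
        have hm2 := hmono.monotone h2.2
        have hm3 := hmono.monotone h12
        have h3 := hR.di w1 w2 h12 (by linarith)
        rw [abs_sub_comm]
        refine le_trans h3 (le_trans ?_ hF3)
        apply mul_le_mul_of_nonneg_left (by linarith) (by positivity)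
      · have hm1 := hmono.monotone h2.1
        have hm2 := hmono.monotone h1.2
        have hm3 := hmono.monotone h12
        have h3 := hR.di w2 w1 h12 (by linarith)
        refine le_trans h3 (le_trans ?_ hF3)
        apply mul_le_mul_of_nonneg_left (by linarith) (by positivity)
    have hp1 := hJp w1
    have hp2 := hJp w2
    have h4 : Real.log (J w1) ≤ Real.log (J w2) + 1 / 100 := by
      have := (abs_le.1 hlog).2
      linarith
    have h5 : J w1 ≤ J w2 * Real.exp (1 / 100) := by
      calc J w1 = Real.exp (Real.log (J w1)) := (Real.exp_log hp1).symm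
        _ ≤ Real.exp (Real.log (J w2) + 1 / 100) := Real.exp_le_exp.2 h4
        _ = J w2 * Real.exp (1 / 100) := by rw [Real.exp_add, Real.exp_log hp2]
    have h6 : Real.exp (1 / 100) ≤ 102 / 100 := by
      have := Real.exp_bound_div_one_sub_of_interval (x := 1 / 100) (by norm_num) (by norm_num)
      refine this.trans ?_
      norm_num
    nlinarith
  have hder : ∀ a1 a2 : ℝ, a1 < a2 → ∃ w ∈ Ioo a1 a2, ℓ a2 - ℓ a1 = J w * (a2 - a1) := by
    intro a1 a2 h12
    obtain ⟨w, hw, he⟩ := exists_hasDerivAt_eq_slope ℓ J h12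
      (fun y _ => (hJd y).continuousAt.continuousWithinAt) (fun y _ => hJd y)
    refine ⟨w, hw, ?_⟩
    rw [he, div_mul_cancel₀ _ (by linarith)]
  obtain ⟨w', hw', hLe⟩ := hder v v' hvv
  have hp : 0 < v' - v := by linarith
  have hUC : UCN (F / l0) D.U E (fun s => γ (v + s * (v' - v))) := by
    refine ⟨?_, ?_⟩
    · exact ((RUW_ct hR.toCv).comp (by fun_prop : Continuous fun s : ℝ => v + s * (v' - v))).continuousOn
    · intro s s' hs0 hss hs1 y hy
      have hu : v + s * (v' - v) < v + s' * (v' - v) := by nlinarith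
      have hu0 : v ≤ v + s * (v' - v) := by nlinarith
      have hu1 : v + s' * (v' - v) ≤ v' := by nlinarith
      obtain ⟨w, hw, hΛ⟩ := hder _ _ hu
      have hwI : w ∈ Icc v v' := ⟨by linarith [hw.1], by linarith [hw.2]⟩
      have hw'I : w' ∈ Icc v v' := ⟨hw'.1.le, hw'.2.le⟩
      have hm1 := hmono.monotone hu0
      have hm2 := hmono.monotone hu1
      obtain ⟨-, h1, h2, h3, h4⟩ := hLDR k C D hFK E γ x b c ℓ hEk hR.toCN _ _ hu.le (by linarith) y hy
      set Λ : ℝ := ℓ (v + s' * (v' - v)) - ℓ (v + s * (v' - v)) with hΛd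
      have hd : v + s' * (v' - v) - (v + s * (v' - v)) = (s' - s) * (v' - v) := by ring
      rw [hd] at hΛ
      have hss' : 0 < s' - s := by linarith
      have hA : Λ ≤ 102 / 100 * ((ℓ v' - ℓ v) * (s' - s)) := by
        have := hcc w hwI w' hw'I
        rw [hΛ, hLe]
        have h3 : 0 < (s' - s) * (v' - v) := mul_pos hss' hp
        nlinarith
      have hB : (ℓ v' - ℓ v) * (s' - s) ≤ 102 / 100 * Λ := by
        have := hcc w' hw'I w hwI
        rw [hΛ, hLe]
        have h3 : 0 < (s' - s) * (v' - v) := mul_pos hss' hp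
        nlinarith
      have hΛ0 : 0 < Λ := by rw [hΛ]; exact mul_pos (hJp w) (mul_pos hss' hp)
      rw [abs_le] at h1
      have e4 : (s' - s) / (F / l0) = l0 * (s' - s) / F := by field_simp
      have hl0s : l0 * (s' - s) ≤ (ℓ v' - ℓ v) * (s' - s) := mul_le_mul_of_nonneg_right hL1 hss'.le
      have hl0s' : (ℓ v' - ℓ v) * (s' - s) ≤ 2 * l0 * (s' - s) := mul_le_mul_of_nonneg_right hL2 hss'.le
      have hFl : F ≤ F / l0 := by
        rw [le_div_iff₀ hl0]
        nlinarith
      change (s' - s) / (F / l0) ≤ Jc D.U E (γ (v + s * (v' - v))) (y.1 0 1) (y.1 1 0) ∧ _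
      set Jy : ℝ := Jc D.U E (γ (v + s * (v' - v))) (y.1 0 1) (y.1 1 0) with hJy
      set Wy : ℝ := Wc D.U E (γ (v + s * (v' - v))) (y.1 0 0 - y.1 1 1) (y.1 0 1) (y.1 1 0) with hWy
      have hJ1 : 99 / 100 * Λ ≤ Jy := by linarith [h1.1]
      have hJ2 : Jy ≤ 101 / 100 * Λ := by linarith [h1.2]
      have hJ0 : 0 < Jy := by linarith
      have hW0 : 0 < Wy := by
        by_contra hc
        push Not at hc
        have : 4 * C * Wy ≤ 0 := mul_nonpos_of_nonneg_of_nonpos (by linarith) hc
        linarith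
      refine ⟨?_, ?_, ?_, ?_, ?_⟩
      · rw [e4, div_le_iff₀ hFp]
        have h5 : l0 * (s' - s) ≤ 102 / 100 * Λ := by linarith
        nlinarith
      · have h5 : 5 * l0 ≤ F := by linarith
        have h6 : Jy ≤ 5 * l0 * (s' - s) := by nlinarith
        have h7 : 5 * l0 * (s' - s) ≤ F / l0 * (s' - s) :=
          mul_le_mul_of_nonneg_right (h5.trans hFl) hss'.le
        exact h6.trans h7
      · exact h2.trans (mul_le_mul_of_nonneg_right (hC1.trans hFl) hW0.le)
      · exact h3.trans (mul_le_mul_of_nonneg_right (hC1.trans hFl) hJ0.le)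
      · have h5 : 40 * C ^ 4 * Λ ≤ 41 * C ^ 4 * Jy := by
          have h6 : 0 < C ^ 4 := by positivity
          have h7 : 40 * Λ ≤ 41 * Jy := by linarith
          nlinarith
        exact h4.trans (h5.trans (mul_le_mul_of_nonneg_right (hC4.trans hFl) hJ0.le))
  exact RUW_scale v v' hvv _ v0 (hU E _ hE hUC)

end

end Pool.Agent.VN
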