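import Pool.Agent.helper55.VN.SpecD

/-!
# Project VN (MP_07c750_an), row QDF: freezing slowly varying functions at the base points of the packets
-/

set_option autoImplicit false

open scoped MatrixGroups ContDiff Topology UpperHalfPlane ComplexConjugate ENNReal
open UpperHalfPlane MeasureTheory Filter Set

namespace Pool.Agent.VN

open Pool.Agent.RS Pool.Agent.VQ
open Pool.Agent.RPQ (CEig mean VV IsOp)

noncomputable section

/-- an integral of a square is bounded by the corresponding `lintegral` bound, without measurability -/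
lemma QDF_int {α : Type} [MeasurableSpace α] (μ : Measure α) (v : α → ℂ) (b : ℝ) (hb : 0 ≤ b)
    (h : ∫⁻ p, ‖v p‖ₑ ^ 2 ∂μ ≤ ENNReal.ofReal b) : ∫ p, ‖v p‖ ^ 2 ∂μ ≤ b := by
  by_cases hi : Integrable (fun p => ‖v p‖ ^ 2) μ
  · rw [← ENNReal.ofReal_le_ofReal_iff hb, ofReal_integral_eq_lintegral_ofReal hi (Eventually.of_forall fun p => by positivity)]
    refine le_trans (le_of_eq ?_) h
    apply lintegral_congr
    intro p
    rw [ENNReal.ofReal_pow (norm_nonneg _), ofReal_norm]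
  · rw [integral_undef hi]
    exact hb

/-- continuity of a slice -/
lemma QDF_slice {X Y : Type} [TopologicalSpace X] [TopologicalSpace Y] (k : ℝ) (f : X × ℝ → Y → ℂ)
    (h : ContinuousOn (fun x : (X × ℝ) × Y => f x.1 x.2) {x | |x.1.2| ≤ k}) (p : X × ℝ) (hp : |p.2| ≤ k) : Continuous (f p) := by
  have h1 : Continuous fun z : Y => (p, z) := by fun_prop
  exact h.comp_continuous h1 fun z => hp

/-- the elementary inequality for the powers of `R` -/
lemma QDF_pow {R x L n : ℝ} (hR : 4 ^ 60 ≤ R) (hx : x ≤ 1 / 120) (hn : 0 ≤ n) :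
    (L * (2 * R ^ (-(1 / 2) + x))) ^ 2 * (R ^ (4 / 5 : ℝ) * n) ≤ L ^ 2 * R ^ (-(1 / 6) : ℝ) * n := by
  have hR1 : (1 : ℝ) ≤ R := le_trans (by norm_num) hR
  have hR0 : 0 < R := by linarith
  have h4 : (4 : ℝ) ≤ R ^ (1 / 60 : ℝ) := by
    have := Real.rpow_le_rpow (by positivity) hR (show (0 : ℝ) ≤ 1 / 60 by norm_num)
    rw [← Real.rpow_natCast, ← Real.rpow_mul (by norm_num)] at this
    norm_num at this
    linarith
  have e1 : (R ^ (-(1 / 2) + x)) ^ 2 * R ^ (4 / 5 : ℝ) = R ^ (-(1 / 5) + 2 * x) := by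
    rw [← Real.rpow_natCast, ← Real.rpow_mul hR0.le, ← Real.rpow_add hR0]
    congr 1
    push_cast
    ring
  have e2 : 4 * R ^ (-(1 / 5) + 2 * x) ≤ R ^ (-(1 / 6) : ℝ) := by
    calc 4 * R ^ (-(1 / 5) + 2 * x) ≤ R ^ (1 / 60 : ℝ) * R ^ (-(1 / 5) + 2 * x) := by
          apply mul_le_mul_of_nonneg_right h4
          positivity
      _ = R ^ (1 / 60 + (-(1 / 5) + 2 * x)) := by rw [← Real.rpow_add hR0]
      _ ≤ R ^ (-(1 / 6) : ℝ) := by
          apply Real.rpow_le_rpow_of_exponent_le hR1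
          linarith
  calc (L * (2 * R ^ (-(1 / 2) + x))) ^ 2 * (R ^ (4 / 5 : ℝ) * n)
      = L ^ 2 * n * (4 * ((R ^ (-(1 / 2) + x)) ^ 2 * R ^ (4 / 5 : ℝ))) := by ring
    _ = L ^ 2 * n * (4 * R ^ (-(1 / 5) + 2 * x)) := by rw [e1]
    _ ≤ L ^ 2 * n * R ^ (-(1 / 6) : ℝ) := by
        apply mul_le_mul_of_nonneg_left e2
        positivity
    _ = L ^ 2 * R ^ (-(1 / 6) : ℝ) * n := by ring

theorem QDF_proof (hQDA : QDA_stmt) (hNFM : NFM_stmt) (hNFR : NFR_stmt) (hVCD : VCD_stmt) : QDF_stmt := by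
  intro k hk
  obtain ⟨CA, hCA, hEDA⟩ := hQDA k hk
  obtain ⟨CF, hCF, hVFM⟩ := hNFM k hk
  obtain ⟨CR, hCR, hVFR⟩ := hNFR k hk
  have hC1 : (1 : ℝ) ≤ 120 * CF * CA := by nlinarith
  refine ⟨120 * CF * CA, hC1, ?_⟩
  intro ch B A hch hA
  have hAA : Adm CA A := Adm_mono hA hCA (by nlinarith)
  have hAF : Adm CF A := Adm_mono hA hCF (by nlinarith)
  obtain ⟨z0, z01, z12, e3z, Cz2, -, hRg⟩ := Adm_small hAF hCF
  obtain ⟨-, -, -, -, Cz2', -, -⟩ := Adm_small hA hC1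
  obtain ⟨RA, hRA, hEDA⟩ := hEDA ch B A hch hAA
  obtain ⟨RF, hRF, hVFM⟩ := hVFM ch 0 A.e3 A.z A.z1 B hch hRg
  have hη : CF * A.z1 ≤ 1 / 120 := by
    have h1 : 120 * CF * CA * A.z2 ≤ 1 := Cz2'
    have h2 : 0 ≤ CF * A.z2 := by
      have : 0 ≤ A.z2 := by linarith
      nlinarith
    have h3 : CF * A.z1 ≤ CF * A.z2 := by nlinarith
    nlinarith
  have hη0 : 0 < CF * A.z1 := by
    have : 0 < A.z1 := by linarith
    nlinarith
  refine ⟨max (max RA RF) (max (4 ^ 60) ((2 / k) ^ 4)), le_trans (le_trans (by norm_num) (le_max_left _ _)) (le_max_right _ _), ?_⟩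
  intro R t L Γ F D φ g hR hDm hD hφ hg hL hLip ht0 ht
  have hRA' : RA ≤ R := le_trans (le_trans (le_max_left _ _) (le_max_left _ _)) hR
  have hRF' : RF ≤ R := le_trans (le_trans (le_max_right _ _) (le_max_left _ _)) hR
  have hR4 : (4 : ℝ) ^ 60 ≤ R := le_trans (le_trans (le_max_left _ _) (le_max_right _ _)) hR
  have hRk : (2 / k) ^ 4 ≤ R := le_trans (le_trans (le_max_right _ _) (le_max_right _ _)) hR
  have hR1 : (1 : ℝ) ≤ R := le_trans (by norm_num) hR4
  have hR0 : 0 < R := by linarith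
  have hnn : 0 ≤ nn F φ := by
    unfold nn
    exact integral_nonneg fun z => by positivity
  have hR16 : (16 : ℝ) ≤ R ^ (1 / 4 : ℝ) := by
    have h1 : ((4 : ℝ) ^ 60) ≤ R := hR4
    have := Real.rpow_le_rpow (by positivity) (le_trans (show ((16 : ℝ) ^ 4) ≤ 4 ^ 60 by norm_num) h1) (show (0 : ℝ) ≤ 1 / 4 by norm_num)
    rw [← Real.rpow_natCast, ← Real.rpow_mul (by norm_num)] at this
    norm_num at this
    linarith
  have hR16' : R ^ (-(1 / 4) : ℝ) ≤ 1 / 16 := by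
    rw [Real.rpow_neg hR0.le, inv_le_comm₀ (by positivity) (by norm_num)]
    linarith
  have hw : 2 * R ^ (-(1 / 4) : ℝ) ≤ k := by
    have h1 := Real.rpow_le_rpow (by positivity) hRk (show (0 : ℝ) ≤ 1 / 4 by norm_num)
    rw [← Real.rpow_natCast, ← Real.rpow_mul (by positivity)] at h1
    norm_num at h1
    rw [div_le_iff₀ hk] at h1
    have h2 : 0 < R ^ (1 / 4 : ℝ) := by positivity
    rw [Real.rpow_neg hR0.le, ← div_eq_mul_inv, div_le_iff₀ h2]
    linarith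
  have hs : R ^ (-(1 / 2) + CF * A.z1) ≤ 1 / 16 := by
    refine le_trans ?_ hR16'
    apply Real.rpow_le_rpow_of_exponent_le hR1
    linarith
  obtain ⟨hFa, -, -, hpF, -⟩ := hVFM R t Γ D hRF' hD (by rw [abs_of_nonneg ht0]; exact ht)
  obtain ⟨hcont, hsup, -, -, -, -⟩ := hVFR Γ F B D 0 (CF * A.z1) (R ^ (3 / 2 + CF * A.z1)) R t (pv D ch A.z A.z1 R t) hDm hD hη0 (by linarith)
    (by positivity) (by linarith) hw hR1 hFa
  have hA2 := hEDA R t Γ F D φ hRA' hDm hD hφ ht0 ht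
  set s : ℝ := 2 * R ^ (-(1 / 2) + CF * A.z1) with hsdef
  have hs0 : 0 ≤ s := by positivity
  obtain ⟨-, -, -, -, -, -, hdc, -, -, -, -⟩ := hVCD
  -- the support of the packets
  have key : ∀ p ∈ GW 2 R, ∀ z : ℍ, psi D ch A.z A.z1 R t p z ≠ 0 → dist z (D.fl p.2 t p.1 • I : ℍ) ≤ s := by
    intro p hp z hz
    obtain ⟨A', -, hA1, -, hA3⟩ := hFa.pk p hp
    have hz' : pv D ch A.z A.z1 R t p (cd ((D.fl p.2 t p.1)⁻¹ • z)) ≠ 0 := hz
    rw [hA3] at hz'
    have h1 := hA1 _ (right_ne_zero_of_mul hz')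
    have h2 := hdc ((D.fl p.2 t p.1)⁻¹ • z) (by linarith)
    have h3 : dist z (D.fl p.2 t p.1 • I : ℍ) = dist ((D.fl p.2 t p.1)⁻¹ • z) I := by
      rw [← dist_smul (D.fl p.2 t p.1) ((D.fl p.2 t p.1)⁻¹ • z) I, smul_inv_smul]
    rw [h3, hsdef]
    linarith
  -- the pointwise bound
  have pw : ∀ p, ‖aF D R t (pv D ch A.z A.z1 R t) (fun z => ((g z : ℝ) : ℂ) * φ z) p - ((g (D.fl p.2 t p.1 • I) : ℝ) : ℂ) * aF D R t (pv D ch A.z A.z1 R t) φ p‖ₑ ≤
      ENNReal.ofReal (L * s) * ∫⁻ z : ℍ, ‖φ z‖ₑ * ‖psi D ch A.z A.z1 R t p z‖ₑ := by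
    intro p
    by_cases hpG : p ∈ GW 2 R
    swap
    · rw [aF, aF, indicator_of_notMem hpG, indicator_of_notMem hpG, mul_zero, sub_zero, enorm_zero]
      exact bot_le
    have hp8 : |p.2| ≤ k := by
      have h1 := hpG.2
      rw [Wi, mem_Icc] at h1
      rw [abs_le]
      constructor <;> linarith [h1.1, h1.2]
    have hcp : Continuous (pF D t (pv D ch A.z A.z1 R t) p) := QDF_slice k (pF D t (pv D ch A.z A.z1 R t)) hcont p hp8
    have hcs : ∀ ψ : ℍ → ℂ, Continuous ψ → Integrable fun z : ℍ => ψ z * conj (pF D t (pv D ch A.z A.z1 R t) p z) := by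
      intro ψ hψ
      apply Continuous.integrable_of_hasCompactSupport
      · exact hψ.mul (Complex.continuous_conj.comp hcp)
      · apply HasCompactSupport.of_support_subset_isCompact (isCompact_closedBall (D.fl p.2 t p.1 • I : ℍ) 1)
        intro z hz
        rw [Function.mem_support] at hz
        have h1 : pF D t (pv D ch A.z A.z1 R t) p z ≠ 0 := by
          intro h0
          apply hz
          rw [h0, map_zero, mul_zero]
        have h2 := ((hsup p hpG z).2 h1).1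
        rw [Metric.mem_closedBall, dist_comm]
        exact h2
    have hgc : Continuous g := hg.1
    rw [aF, aF, indicator_of_mem hpG, indicator_of_mem hpG, ← integral_const_mul, ← integral_sub (hcs _ (by
      exact (Complex.continuous_ofReal.comp hgc).mul hφ.cont)) ((hcs φ hφ.cont).const_mul _)]
    refine le_trans (enorm_integral_le_lintegral_enorm _) ?_
    rw [← lintegral_const_mul' _ _ ENNReal.ofReal_ne_top]
    apply lintegral_mono
    intro z
    show ‖((g z : ℝ) : ℂ) * φ z * conj (pF D t (pv D ch A.z A.z1 R t) p z) - ((g (D.fl p.2 t p.1 • I) : ℝ) : ℂ) * (φ z * conj (pF D t (pv D ch A.z A.z1 R t) p z))‖ₑ ≤ ENNReal.ofReal (L * s) * (‖φ z‖ₑ * ‖psi D ch A.z A.z1 R t p z‖ₑ)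
    have e1 : ((g z : ℝ) : ℂ) * φ z * conj (pF D t (pv D ch A.z A.z1 R t) p z) - ((g (D.fl p.2 t p.1 • I) : ℝ) : ℂ) * (φ z * conj (pF D t (pv D ch A.z A.z1 R t) p z)) =
        ((g z - g (D.fl p.2 t p.1 • I) : ℝ) : ℂ) * (φ z * conj (pF D t (pv D ch A.z A.z1 R t) p z)) := by
      push_cast
      ring
    rw [e1, enorm_mul, enorm_mul, RCLike.enorm_conj, hpF]
    by_cases h0 : psi D ch A.z A.z1 R t p z = 0
    · rw [h0, enorm_zero, mul_zero, mul_zero, mul_zero]
    · apply mul_le_mul_left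
      have h1 := key p hpG z h0
      rw [← ofReal_norm, Complex.norm_real, Real.norm_eq_abs]
      apply ENNReal.ofReal_le_ofReal
      refine le_trans (hLip _ _) ?_
      exact mul_le_mul_of_nonneg_left h1 hL
  unfold nP
  apply QDF_int
  · positivity
  refine le_trans ?_ (ENNReal.ofReal_le_ofReal (QDF_pow (L := L) hR4 hη hnn))
  rw [← hsdef, ENNReal.ofReal_mul (by positivity), ENNReal.ofReal_pow (by positivity)]
  refine le_trans ?_ (mul_le_mul_right hA2 _)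
  rw [← lintegral_const_mul' _ _ (ENNReal.pow_ne_top ENNReal.ofReal_ne_top)]
  apply lintegral_mono
  intro p
  show ‖_‖ₑ ^ 2 ≤ ENNReal.ofReal (L * s) ^ 2 * (∫⁻ z : ℍ, ‖φ z‖ₑ * ‖psi D ch A.z A.z1 R t p z‖ₑ) ^ 2
  rw [← mul_pow]
  exact pow_le_pow_left' (pw p) 2

end

end Pool.Agent.VN
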