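import Pool.Agent.helper74.VN.SpecA
import Pool.Agent.helper30.VQ.VIS

/-!
# Project VN (MP_07c750_an), row NIS: the exact isometry
-/

set_option autoImplicit false

open scoped MatrixGroups ContDiff Topology UpperHalfPlane ComplexConjugate ENNReal
open UpperHalfPlane MeasureTheory Filter Set

namespace Pool.Agent.VN

open Pool.Agent.RS Pool.Agent.VQ

noncomputable section

theorem NIS_proof (hVCD : VQ.VCD_stmt) (hVQF : VQ.VQF_stmt) (hVPL : VQ.VPL_stmt) (hVPO : VQ.VPO_stmt)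
    (hVBR : VQ.VBR_stmt) (hVCM : VQ.VCM_stmt) (hVDM : VQ.VDM_stmt) (hNQS : NQS_stmt) : NIS_stmt := by
  intro ch ζ k hch hk hζ hζ8
  obtain ⟨R1, hR1, h1⟩ := hVBR ch ζ hch hζ hζ8
  obtain ⟨R2, hR2, h2⟩ := hVQF ch ζ hch hζ hζ8
  obtain ⟨R3, hR3, h3⟩ := hNQS ch ζ k hch hk hζ hζ8
  refine ⟨max R1 (max R2 R3), le_max_of_le_left hR1, ?_⟩
  intro R Γ F U φ hR hDm hPU hφ
  have hRR1 : R1 ≤ R := le_trans (le_max_left _ _) hR
  have hRR2 : R2 ≤ R := le_trans (le_trans (le_max_left _ _) (le_max_right _ _)) hR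
  have hRR3 : R3 ≤ R := le_trans (le_trans (le_max_right _ _) (le_max_right _ _)) hR
  have hRpos : 0 < R := by linarith
  obtain ⟨hb1, hb2, hb3, hb4, hb5, hb6, hb7, -, -⟩ := h1 R hRR1
  obtain ⟨-, -, -, hq4, -, -⟩ := h3 R Γ F U hRR3 hDm hPU
  obtain ⟨hQc, hQP⟩ := hq4 φ hφ
  obtain ⟨hΓc, hFm, huniq, -, hW⟩ := hVDM Γ F hDm
  have hdG : MeasurableSet (dG F) := (hW univ MeasurableSet.univ).2.2.2.2.1
  have hbR : bR ch ζ R ≠ 0 := by
    intro h0
    rw [h0, mul_zero] at hb7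
    have : 0 < R ^ 2 / (2 * Real.pi) := by positivity
    linarith
  have hbRpos : 0 < bR ch ζ R := by
    rcases lt_or_ge 0 (bR ch ζ R) with h | h
    · exact h
    · exfalso
      have h4 : cR ch ζ R ^ 2 * bR ch ζ R ≤ 0 := mul_nonpos_of_nonneg_of_nonpos (sq_nonneg _) h
      have : 0 < R ^ 2 / (2 * Real.pi) := by positivity
      linarith
  have hsc : SecondCountableTopology SL(2, ℝ) := A_GLC.2.1
  obtain ⟨-, -, -, -, -, -, -, -, -, -, -, -, -, -, -, hkI, -⟩ := A_GLC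
  -- measurability
  set S : Set (SL(2, ℝ) × ℝ) := {p | -(U (p.1 • I) / 2) < p.2} with hS
  have hUc : Continuous fun g : SL(2, ℝ) => U (g • I) :=
    hPU.inv.1.comp (continuous_id.smul continuous_const)
  have hSm : MeasurableSet S := by
    refine measurableSet_lt ?_ measurable_snd
    exact ((hUc.measurable.comp measurable_fst).div_const 2).neg
  have hGm : Measurable fun g : SL(2, ℝ) =>
      ∫⁻ E in {E : ℝ | -(U (g • I) / 2) < E}, ‖QF U ch ζ R φ (g, E)‖ₑ ^ 2 := by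
    have h5 : (fun g : SL(2, ℝ) =>
        ∫⁻ E in {E : ℝ | -(U (g • I) / 2) < E}, ‖QF U ch ζ R φ (g, E)‖ₑ ^ 2) =
        fun g : SL(2, ℝ) => ∫⁻ E, S.indicator (fun p => ‖QF U ch ζ R φ p‖ₑ ^ 2) (g, E) := by
      funext g
      have hms : MeasurableSet {E : ℝ | -(U (g • I) / 2) < E} := measurableSet_lt measurable_const measurable_id
      rw [← lintegral_indicator hms]
      rfl
    rw [h5]
    exact Measurable.lintegral_prod_right' (f := S.indicator (fun p => ‖QF U ch ζ R φ p‖ₑ ^ 2))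
      ((hQP.meas.enorm.pow_const 2).indicator hSm)
  set G : SL(2, ℝ) → ENNReal := fun g =>
      ∫⁻ E in {E : ℝ | -(U (g • I) / 2) < E}, ‖QF U ch ζ R φ (g, E)‖ₑ ^ 2 with hG
  set A : ENNReal := ENNReal.ofReal (cR ch ζ R ^ 2 * (2 * Real.pi / R) ^ 2) with hA
  set K : ℍ → ℍ → ENNReal := fun z w =>
    ENNReal.ofReal (VIS_k ch ζ R (QU.tt z w)) * ‖φ w‖ₑ ^ 2 with hK
  have hbase : ∀ z : ℍ, ∫⁻ θ in Ioc 0 (2 * Real.pi), G (toSL2R z * kM θ) = A * ∫⁻ w, K z w := by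
    intro z
    have hz : toSL2R z • I = z := toSL2R_smul_I z
    have h6 := VIS_base hVCD hVCM hVPL hVPO ch ζ R hch hRpos U φ (toSL2R z) hφ.cont
      (by have := (hPU.bd (toSL2R z • I)).1; linarith) hb1.continuous
      (fun v hv => (hb2 v hv).trans hb4) (fun θ E => h2 R U φ (toSL2R z) θ E hRR2 hφ.cont)
    rw [hz] at h6
    rw [← h6]
    refine lintegral_congr fun θ => ?_
    have h7 : (toSL2R z * kM θ) • I = z := by
      rw [mul_smul, hkI θ, hz]
    simp only [hG]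
    rw [h7]
  have hind : ∀ z : ℍ, ∫⁻ θ in Ioc 0 (2 * Real.pi), (dG F).indicator G (toSL2R z * kM θ) =
      F.indicator (fun z => A * ∫⁻ w, K z w) z := by
    intro z
    have h7 : ∀ θ, (toSL2R z * kM θ) • I = z := by
      intro θ
      rw [mul_smul, hkI θ, toSL2R_smul_I]
    by_cases hzF : z ∈ F
    · rw [indicator_of_mem hzF, ← hbase z]
      refine lintegral_congr fun θ => ?_
      rw [indicator_of_mem]
      show (toSL2R z * kM θ) • I ∈ F
      rw [h7 θ]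
      exact hzF
    · rw [indicator_of_notMem hzF]
      have h8 : ∀ θ, (dG F).indicator G (toSL2R z * kM θ) = 0 := by
        intro θ
        rw [indicator_of_notMem]
        show ¬ (toSL2R z * kM θ) • I ∈ F
        rw [h7 θ]
        exact hzF
      simp only [h8, lintegral_zero]
  have hKm : Measurable (Function.uncurry K) := by
    refine Measurable.mul ?_ ((hφ.cont.measurable.comp measurable_snd).enorm.pow_const 2)
    exact ENNReal.measurable_ofReal.comp ((VIS_k_meas ch ζ R hch).comp QU.A_TTT.2.2.2.2.1.measurable)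
  have hKinv : ∀ (γ : Γ) z w, K (γ • z) (γ • w) = K z w := by
    intro γ z w
    have e1 : QU.tt (γ • z) (γ • w) = QU.tt z w := QU.A_TTT.2.2.2.1 (γ : SL(2, ℝ)) z w
    simp only [hK]
    rw [e1, hφ.inv]
  have hKz : ∀ w : ℍ, ∫⁻ z, K z w = ENNReal.ofReal (bR ch ζ R) * ‖φ w‖ₑ ^ 2 := by
    intro w
    have hne : ‖φ w‖ₑ ^ 2 ≠ ⊤ := by
      rw [VIS_enorm_sq]
      exact ENNReal.ofReal_ne_top
    simp only [hK]
    rw [lintegral_mul_const' _ _ hne, VIS_kint hVCD ch ζ R hch hbR w]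
  have hpi : (0 : ℝ) < 2 * Real.pi := by positivity
  have hcne : (ENNReal.ofReal (2 * Real.pi))⁻¹ ≠ ⊤ := by
    rw [← ENNReal.ofReal_inv_of_pos hpi]
    exact ENNReal.ofReal_ne_top
  have hAne : A ≠ ⊤ := ENNReal.ofReal_ne_top
  calc ∫⁻ g in dG F, G g ∂mG = ∫⁻ g, (dG F).indicator G g ∂mG := (lintegral_indicator hdG _).symm
    _ = ∫⁻ z : ℍ, (ENNReal.ofReal (2 * Real.pi))⁻¹ *
          ∫⁻ θ in Ioc 0 (2 * Real.pi), (dG F).indicator G (toSL2R z * kM θ) :=
        A_GMG.2.2.2.1 _ (hGm.indicator hdG)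
    _ = (ENNReal.ofReal (2 * Real.pi))⁻¹ * ∫⁻ z : ℍ, F.indicator (fun z => A * ∫⁻ w, K z w) z := by
        rw [lintegral_const_mul' _ _ hcne]
        congr 1
        exact lintegral_congr hind
    _ = (ENNReal.ofReal (2 * Real.pi))⁻¹ * (A * ∫⁻ z in F, ∫⁻ w, K z w) := by
        rw [lintegral_indicator hFm, lintegral_const_mul' _ _ hAne]
    _ = (ENNReal.ofReal (2 * Real.pi))⁻¹ * (A * ∫⁻ w in F, ∫⁻ z, K z w) := by
        rw [VIS_unf Γ hΓc F hFm huniq K hKm hKinv]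
    _ = (ENNReal.ofReal (2 * Real.pi))⁻¹ * (A * (ENNReal.ofReal (bR ch ζ R) * ∫⁻ w in F, ‖φ w‖ₑ ^ 2)) := by
        rw [lintegral_congr hKz, lintegral_const_mul' _ _ ENNReal.ofReal_ne_top]
    _ = ENNReal.ofReal (nn F φ) := by
        rw [VIS_nn Γ F hFm φ hφ, ← mul_assoc A, ← mul_assoc, ← ENNReal.ofReal_inv_of_pos hpi, hA,
          ← ENNReal.ofReal_mul (by positivity), ← ENNReal.ofReal_mul (by positivity)]
        have h9 : (2 * Real.pi)⁻¹ * (cR ch ζ R ^ 2 * (2 * Real.pi / R) ^ 2 * bR ch ζ R) = 1 := by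
          have h10 : cR ch ζ R ^ 2 * (2 * Real.pi / R) ^ 2 * bR ch ζ R =
              (cR ch ζ R ^ 2 * bR ch ζ R) * (2 * Real.pi / R) ^ 2 := by ring
          rw [h10, hb7]
          have hRne : R ≠ 0 := hRpos.ne'
          have hpne : Real.pi ≠ 0 := Real.pi_ne_zero
          field_simp
        rw [h9, ENNReal.ofReal_one, one_mul]

end

end Pool.Agent.VN
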